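import Mathlib

/-!
# Elementary symmetric functions of the Satake parameters

`E k a` is the `k`-th elementary symmetric function of `a : Fin n → ℂ`.
-/

set_option autoImplicit false

namespace Pool.Agent.N65.Ram

open Finset

/-- the `k`-th elementary symmetric function -/
noncomputable def E {n : ℕ} (k : ℕ) (a : Fin n → ℂ) : ℂ :=
  ∑ t ∈ powersetCard k univ, ∏ i ∈ t, a i

variable {n : ℕ}

theorem E_zero (a : Fin n → ℂ) : E 0 a = 1 := by
  simp [E]

theorem E_card (a : Fin n → ℂ) : E n a = ∏ i, a i := by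
  have h : powersetCard n (univ : Finset (Fin n)) = {univ} := by
    have h2 := powersetCard_self (univ : Finset (Fin n))
    rwa [card_univ, Fintype.card_fin] at h2
  rw [E, h, sum_singleton]

theorem newton (a : Fin n → ℂ) (k : ℕ) :
    (k : ℂ) * E k a = (-1) ^ (k + 1) *
      ∑ x ∈ antidiagonal k with x.1 < k, (-1) ^ x.1 * E x.1 a * ∑ i, a i ^ x.2 := by
  have h := congrArg (MvPolynomial.eval a) (MvPolynomial.mul_esymm_eq_sum (σ := Fin n) (R := ℂ) k)
  simpa [MvPolynomial.esymm, MvPolynomial.psum, E] using h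

/-- `k ‖e_k‖ ≤ ∑ ‖e_{k-j}‖ ‖p_j‖` -/
theorem newton_norm (a : Fin n → ℂ) (k : ℕ) :
    (k : ℝ) * ‖E k a‖ ≤ ∑ j ∈ range k, ‖E j a‖ * ‖∑ i, a i ^ (k - j)‖ := by
  have h := congrArg norm (newton a k)
  rw [norm_mul, norm_mul, norm_pow, norm_neg, norm_one, one_pow, one_mul, Complex.norm_natCast] at h
  rw [h]
  refine (norm_sum_le _ _).trans ?_
  have e : (∑ x ∈ antidiagonal k with x.1 < k, ‖(-1) ^ x.1 * E x.1 a * ∑ i, a i ^ x.2‖) =
      ∑ x ∈ antidiagonal k with x.1 < k, ‖E x.1 a‖ * ‖∑ i, a i ^ x.2‖ :=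
    sum_congr rfl fun x _ => by
      rw [norm_mul, norm_mul, norm_pow, norm_neg, norm_one, one_pow, one_mul]
  rw [e]
  refine le_of_eq ?_
  refine sum_nbij' (fun x => x.1) (fun j => (j, k - j)) ?_ ?_ ?_ ?_ ?_
  · intro x hx
    simp only [mem_filter, HasAntidiagonal.mem_antidiagonal, mem_range] at hx ⊢
    exact hx.2
  · intro j hj
    simp only [mem_filter, HasAntidiagonal.mem_antidiagonal, mem_range] at hj ⊢
    exact ⟨by omega, hj⟩
  · intro x hx
    simp only [mem_filter, HasAntidiagonal.mem_antidiagonal] at hx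
    ext <;> simp <;> omega
  · intro j hj
    rfl
  · intro x hx
    simp only [mem_filter, HasAntidiagonal.mem_antidiagonal] at hx
    have : k - x.1 = x.2 := by omega
    simp only [this]

/-- the square of the inequality, by Cauchy-Schwarz -/
theorem newton_sq (a : Fin n → ℂ) {k : ℕ} (hk : 1 ≤ k) :
    ‖E k a‖ ^ 2 ≤ ∑ j ∈ range k, ‖E j a‖ ^ 2 * ‖∑ i, a i ^ (k - j)‖ ^ 2 := by
  have h := newton_norm a k
  have hk' : (1 : ℝ) ≤ k := by exact_mod_cast hk
  have h2 : ((k : ℝ) * ‖E k a‖) ^ 2 ≤ k * ∑ j ∈ range k, (‖E j a‖ * ‖∑ i, a i ^ (k - j)‖) ^ 2 := by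
    refine (pow_le_pow_left₀ (by positivity) h 2).trans ?_
    have := sq_sum_le_card_mul_sum_sq (s := range k) (f := fun j => ‖E j a‖ * ‖∑ i, a i ^ (k - j)‖)
    simpa using this
  have h3 : (k : ℝ) ^ 2 * ‖E k a‖ ^ 2 ≤ k * ∑ j ∈ range k, ‖E j a‖ ^ 2 * ‖∑ i, a i ^ (k - j)‖ ^ 2 := by
    simpa [mul_pow] using h2
  have h4 : 0 ≤ ∑ j ∈ range k, ‖E j a‖ ^ 2 * ‖∑ i, a i ^ (k - j)‖ ^ 2 :=
    sum_nonneg fun _ _ => by positivity
  have h5 : (k : ℝ) * ‖E k a‖ ^ 2 ≤ ∑ j ∈ range k, ‖E j a‖ ^ 2 * ‖∑ i, a i ^ (k - j)‖ ^ 2 := by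
    have h0 : (0 : ℝ) < k := by linarith
    rw [sq, mul_assoc] at h3
    exact le_of_mul_le_mul_left h3 h0
  have h6 : ‖E k a‖ ^ 2 ≤ (k : ℝ) * ‖E k a‖ ^ 2 := le_mul_of_one_le_left (by positivity) hk'
  exact h6.trans h5

/-- the roots are bounded by the coefficients -/
theorem root_le (a : Fin n → ℂ) (j : Fin n) :
    ‖a j‖ ^ n ≤ ∑ k ∈ Icc 1 n, ‖E k a‖ * ‖a j‖ ^ (n - k) := by
  have h := prod_add (fun i => -a i) (fun _ => a j) (univ : Finset (Fin n))
  have h0 : ∏ i, (-a i + a j) = 0 := prod_eq_zero (mem_univ j) (by ring)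
  rw [h0, sum_powerset] at h
  simp only [card_univ, Fintype.card_fin] at h
  have e : ∀ k ∈ range (n + 1), ∑ t ∈ powersetCard k (univ : Finset (Fin n)),
      (∏ i ∈ t, -a i) * ∏ _i ∈ univ \ t, a j = (-1) ^ k * E k a * a j ^ (n - k) := by
    intro k hk
    rw [E, mul_sum, sum_mul]
    refine sum_congr rfl fun t ht => ?_
    rw [mem_powersetCard] at ht
    rw [prod_neg, prod_const, card_sdiff_of_subset (subset_univ t), card_univ, Fintype.card_fin, ht.2]
  rw [sum_congr rfl e, sum_range_succ'] at h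
  simp only [pow_zero, E_zero, one_mul, Nat.sub_zero] at h
  have h2 : a j ^ n = -∑ k ∈ range n, (-1) ^ (k + 1) * E (k + 1) a * a j ^ (n - (k + 1)) :=
    eq_neg_of_add_eq_zero_right h.symm
  rw [← norm_pow, h2, norm_neg]
  refine (norm_sum_le _ _).trans (le_of_eq ?_)
  have e3 : Icc 1 n = Ico (0 + 1) (n + 1) := by
    ext x
    simp only [mem_Icc, mem_Ico]
    omega
  rw [e3, ← sum_Ico_add' (fun k => ‖E k a‖ * ‖a j‖ ^ (n - k)) 0 n 1, range_eq_Ico]
  refine sum_congr rfl fun k _ => ?_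
  rw [norm_mul, norm_mul, norm_pow, norm_neg, norm_one, one_pow, one_mul, norm_pow]

/-- the parameters of a unitary representation -/
def Unitary (a : Fin n → ℂ) : Prop :=
  (∀ i, a i ≠ 0) ∧ ∃ τ : Equiv.Perm (Fin n), ∀ i, a (τ i) = ((starRingEnd ℂ) (a i))⁻¹

theorem norm_prod_eq_one {a : Fin n → ℂ} (h : Unitary a) : ‖∏ i, a i‖ = 1 := by
  obtain ⟨h0, τ, hτ⟩ := h
  have h1 : ∏ i, a i = (∏ i, (starRingEnd ℂ) (a i))⁻¹ := by
    rw [← Equiv.prod_comp τ, ← prod_inv_distrib]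
    exact prod_congr rfl fun i _ => hτ i
  have h2 := congrArg norm h1
  rw [norm_inv, ← map_prod, RCLike.norm_conj] at h2
  have h3 : 0 < ‖∏ i, a i‖ := norm_pos_iff.2 (prod_ne_zero_iff.2 fun i _ => h0 i)
  have h4 : ‖∏ i, a i‖ * ‖∏ i, a i‖ = 1 := by
    nth_rw 1 [h2]
    exact inv_mul_cancel₀ h3.ne'
  nlinarith

theorem E_symm {a : Fin n → ℂ} (h : Unitary a) {k : ℕ} (hk : k ≤ n) : ‖E (n - k) a‖ = ‖E k a‖ := by
  have hP := norm_prod_eq_one h
  obtain ⟨h0, τ, hτ⟩ := h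
  have e1 : E (n - k) a = (∏ i, a i) * ∑ t ∈ powersetCard k univ, ∏ i ∈ t, (a i)⁻¹ := by
    rw [E, mul_sum]
    refine sum_nbij' (fun t => tᶜ) (fun t => tᶜ) ?_ ?_ ?_ ?_ ?_
    · intro t ht
      rw [mem_powersetCard] at ht ⊢
      refine ⟨subset_univ _, ?_⟩
      rw [card_compl, Fintype.card_fin, ht.2]
      omega
    · intro t ht
      rw [mem_powersetCard] at ht ⊢
      refine ⟨subset_univ _, ?_⟩
      rw [card_compl, Fintype.card_fin, ht.2]
    · intro t _
      exact compl_compl t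
    · intro t _
      exact compl_compl t
    · intro t _
      rw [prod_inv_distrib, ← prod_compl_mul_prod tᶜ a, compl_compl, mul_assoc, mul_inv_cancel₀, mul_one]
      exact prod_ne_zero_iff.2 fun i _ => h0 i
  have e2 : ∑ t ∈ powersetCard k (univ : Finset (Fin n)), ∏ i ∈ t, (a i)⁻¹ =
      (starRingEnd ℂ) (E k a) := by
    rw [E, map_sum]
    refine sum_nbij' (fun t => t.map τ.toEmbedding) (fun t => t.map τ.symm.toEmbedding) ?_ ?_ ?_ ?_ ?_
    · intro t ht
      rw [mem_powersetCard] at ht ⊢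
      exact ⟨subset_univ _, by rw [card_map, ht.2]⟩
    · intro t ht
      rw [mem_powersetCard] at ht ⊢
      exact ⟨subset_univ _, by rw [card_map, ht.2]⟩
    · intro t _
      ext i
      simp
    · intro t _
      ext i
      simp
    · intro t _
      rw [map_prod, prod_map]
      refine prod_congr rfl fun i _ => ?_
      simp only [Equiv.coe_toEmbedding, hτ i, map_inv₀, Complex.conj_conj]
  rw [e1, e2, norm_mul, hP, one_mul, RCLike.norm_conj]

/-- if a parameter is large, then one of the first elementary symmetric functions is large -/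
theorem large {a : Fin n → ℂ} (h : Unitary a) {R : ℝ} (hR : 1 ≤ R) (hn : (n : ℝ) < R ^ n) {j : Fin n}
    (hj : R ≤ ‖a j‖) : ∃ k, 1 ≤ k ∧ k ≤ n / 2 ∧ R ^ k ≤ n * ‖E k a‖ := by
  by_contra hc
  push Not at hc
  set z : ℝ := ‖a j‖ with hz
  have hz1 : 1 ≤ z := hR.trans hj
  have hn0 : 0 < n := j.pos
  have hn0' : (0 : ℝ) < n := by exact_mod_cast hn0
  have h1 := root_le a j
  -- every term with `k < n` is at most `z ^ n / n`, with strict inequality, and the last one is `1`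
  have key : ∀ k, 1 ≤ k → k < n → n * ‖E k a‖ < z ^ k := by
    intro k hk1 hk2
    by_cases hk : k ≤ n / 2
    · exact (hc k hk1 hk).trans_le (pow_le_pow_left₀ (by linarith) hj k)
    · have h2 := hc (n - k) (by omega) (by omega)
      rw [E_symm h hk2.le] at h2
      refine h2.trans_le ((pow_le_pow_left₀ (by linarith) hj _).trans ?_)
      exact pow_le_pow_right₀ hz1 (by omega)
  have hlast : n * ‖E n a‖ < z ^ n := by
    rw [E_card, norm_prod_eq_one h, mul_one]
    exact hn.trans_le (pow_le_pow_left₀ (by linarith) hj n)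
  have h2 : ∀ k ∈ Icc 1 n, ‖E k a‖ * z ^ (n - k) < z ^ n / n := by
    intro k hk
    rw [mem_Icc] at hk
    have h3 : n * ‖E k a‖ < z ^ k := by
      rcases lt_or_eq_of_le hk.2 with h4 | h4
      · exact key k hk.1 h4
      · rw [h4]
        exact hlast
    rw [lt_div_iff₀ hn0']
    have h5 : z ^ n = z ^ k * z ^ (n - k) := by rw [← pow_add]; congr 1; omega
    rw [h5]
    have h6 : 0 < z ^ (n - k) := by positivity
    nlinarith
  have h3 : ∑ k ∈ Icc 1 n, ‖E k a‖ * z ^ (n - k) < ∑ _k ∈ Icc 1 n, z ^ n / n :=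
    sum_lt_sum_of_nonempty ⟨1, by simp; omega⟩ h2
  rw [sum_const, Nat.card_Icc, nsmul_eq_mul] at h3
  have h4 : ((n + 1 - 1 : ℕ) : ℝ) * (z ^ n / n) = z ^ n := by
    rw [Nat.add_sub_cancel]
    field_simp
  rw [h4] at h3
  linarith

end Pool.Agent.N65.Ram
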