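import Mathlib
import Pool.Agent.N65.Esymm

/-!
# The places with large Satake parameters

`Cuspidal α`: the Satake parameters `α v : Fin n → ℂ`, `v ∉ S`, are unitary and the logarithm of the Rankin-Selberg
series `L^S(s, π × π~)` converges absolutely for `Re s > 1`.
-/

set_option autoImplicit false

namespace Pool.Agent.N65.Ram

open NumberField IsDedekindDomain Finset

/-- the finite places of `K` outside `S` -/
abbrev Places {K : Type} [Field K] [NumberField K] (S : Finset (HeightOneSpectrum (𝓞 K))) :=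
  {v : HeightOneSpectrum (𝓞 K) // v ∉ S}

/-- the norm of a finite place -/
noncomputable def Nm {K : Type} [Field K] [NumberField K] (v : HeightOneSpectrum (𝓞 K)) : ℕ :=
  Ideal.absNorm v.asIdeal

/-- What is used of a unitary cuspidal automorphic representation `π` of `GL_n` over `K`, unramified outside `S`, with
Satake parameters `α`: the local components are unitary, and the Rankin-Selberg Euler product converges absolutely for
`Re s > 1`. -/
structure Cuspidal {K : Type} [Field K] [NumberField K] {S : Finset (HeightOneSpectrum (𝓞 K))} {n : ℕ}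
    (α : Places S → Fin n → ℂ) : Prop where
  unitary : ∀ v, Unitary (α v)
  rankinSelberg : ∀ σ : ℝ, 1 < σ → Summable fun x : Places S × ℕ =>
    ‖∑ i, α x.1 i ^ (x.2 + 1)‖ ^ 2 / ((x.2 : ℝ) + 1) * (Nm x.1.1 : ℝ) ^ (-(((x.2 : ℝ) + 1) * σ))

variable {K : Type} [Field K] [NumberField K] {S : Finset (HeightOneSpectrum (𝓞 K))} {n : ℕ}

theorem two_le_Nm (v : HeightOneSpectrum (𝓞 K)) : 2 ≤ Nm v := by
  have h0 : Nm v ≠ 0 := by
    unfold Nm
    exact Ideal.absNorm_eq_zero_iff.not.2 v.ne_bot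
  have h1 : Nm v ≠ 1 := by
    unfold Nm
    intro h
    exact v.isPrime.ne_top (Ideal.absNorm_eq_one_iff.1 h)
  omega

theorem finite_Nm_le (x : ℝ) : {v : Places S | (Nm v.1 : ℝ) ≤ x}.Finite := by
  have h1 : {I : Ideal (𝓞 K) | Ideal.absNorm I ≤ ⌊x⌋₊}.Finite := Ideal.finite_setOfPred_absNorm_le _
  refine Set.Finite.subset (h1.preimage (f := fun v : Places S => v.1.asIdeal) ?_) ?_
  · intro v _ w _ hvw
    exact Subtype.ext (HeightOneSpectrum.ext hvw)
  · intro v hv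
    simp only [Set.mem_ofPred_eq, Set.mem_preimage] at hv ⊢
    exact Nat.le_floor hv

variable {α : Places S → Fin n → ℂ}

theorem rows (h : Cuspidal α) {σ : ℝ} (hσ : 1 < σ) {j : ℕ} (hj : 1 ≤ j) :
    Summable fun v : Places S => ‖∑ i, α v i ^ j‖ ^ 2 * (Nm v.1 : ℝ) ^ (-(j * σ)) := by
  obtain ⟨m, rfl⟩ : ∃ m, j = m + 1 := ⟨j - 1, by omega⟩
  have h1 := (h.rankinSelberg σ hσ).comp_injective (i := fun v : Places S => (v, m))
    (fun v w hvw => congrArg Prod.fst hvw)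
  refine (h1.mul_left ((m : ℝ) + 1)).congr fun v => ?_
  simp only [Function.comp_apply]
  push_cast
  have : (m : ℝ) + 1 ≠ 0 := by positivity
  field_simp

/-- the mean square of `e_k` of the Satake parameters -/
theorem summable_E (h : Cuspidal α) {σ : ℝ} (hσ : 1 < σ) (k : ℕ) (hk : 1 ≤ k) :
    Summable fun v : Places S => ‖E k (α v)‖ ^ 2 * (Nm v.1 : ℝ) ^ (-(k * σ)) := by
  induction k using Nat.strong_induction_on with
  | _ k ih =>
  have h1 : ∀ j ∈ range k, Summable fun v : Places S =>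
      (‖E j (α v)‖ ^ 2 * (Nm v.1 : ℝ) ^ (-(j * σ))) *
        (‖∑ i, α v i ^ (k - j)‖ ^ 2 * (Nm v.1 : ℝ) ^ (-(((k - j : ℕ) : ℝ) * σ))) := by
    intro j hj
    rw [mem_range] at hj
    have h2 := rows h hσ (j := k - j) (by omega)
    rcases Nat.eq_zero_or_pos j with rfl | hj0
    · refine h2.congr fun v => ?_
      simp [E_zero]
    · have h3 := ih j hj hj0
      refine Summable.of_nonneg_of_le (fun v => by positivity) (fun v => ?_)
        (h2.mul_left (∑' v : Places S, ‖E j (α v)‖ ^ 2 * (Nm v.1 : ℝ) ^ (-(j * σ))))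
      exact mul_le_mul_of_nonneg_right (h3.le_tsum v fun w _ => by positivity) (by positivity)
  refine Summable.of_nonneg_of_le (fun v => by positivity) (fun v => ?_) (summable_sum h1)
  have hN : (0 : ℝ) < Nm v.1 := by
    have := two_le_Nm v.1
    exact_mod_cast (by omega : 0 < Nm v.1)
  refine (mul_le_mul_of_nonneg_right (newton_sq (α v) hk) (by positivity)).trans (le_of_eq ?_)
  rw [sum_mul]
  refine sum_congr rfl fun j hj => ?_
  rw [mem_range] at hj
  have e : (Nm v.1 : ℝ) ^ (-((k : ℝ) * σ)) =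
      (Nm v.1 : ℝ) ^ (-((j : ℝ) * σ)) * (Nm v.1 : ℝ) ^ (-(((k - j : ℕ) : ℝ) * σ)) := by
    rw [← Real.rpow_add hN]
    congr 1
    push_cast [Nat.cast_sub hj.le]
    ring
  rw [e]
  ring

/-- the sum over the places with large parameters -/
theorem summable_large (h : ∀ v, Unitary (α v)) {θ s : ℝ} (hθ : 0 < θ)
    (hw : ∀ k : ℕ, 1 ≤ k → k ≤ n / 2 → ∃ w : ℝ, w - 2 * k * θ ≤ s ∧
      Summable fun v : Places S => ‖E k (α v)‖ ^ 2 * (Nm v.1 : ℝ) ^ (-w)) :
    Summable fun v : {v : Places S // ∃ i, (Nm v.1 : ℝ) ^ θ ≤ ‖α v i‖} => (Nm v.1.1 : ℝ) ^ (-s) := by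
  choose! w hw1 hw2 using hw
  -- the finitely many small places
  have hfin : {v : Places S | ((Nm v.1 : ℝ) ^ θ) ^ n ≤ n ∧ 0 < n}.Finite := by
    rcases Nat.eq_zero_or_pos n with rfl | hn
    · simp
    refine (finite_Nm_le (S := S) (((n : ℝ)) ^ (1 / (θ * n)))).subset fun v hv => ?_
    have hv' := hv.1
    have hn' : (0 : ℝ) < n := by exact_mod_cast hn
    have e : ((Nm v.1 : ℝ) ^ θ) ^ n = (Nm v.1 : ℝ) ^ (θ * n) := by
      rw [Real.rpow_mul (by positivity), Real.rpow_natCast]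
    rw [e] at hv'
    have h2 := Real.rpow_le_rpow (by positivity) hv' (by positivity : 0 ≤ 1 / (θ * n))
    rw [← Real.rpow_mul (by positivity), mul_one_div_cancel (by positivity), Real.rpow_one] at h2
    exact h2
  classical
  have hs1 : Summable fun v : Places S =>
      if ((Nm v.1 : ℝ) ^ θ) ^ n ≤ n ∧ 0 < n then (Nm v.1 : ℝ) ^ (-s) else 0 := by
    refine summable_of_ne_finset_zero (s := hfin.toFinset) fun v hv => ?_
    rw [Set.Finite.mem_toFinset] at hv
    exact if_neg hv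
  have hs2 : Summable fun v : Places S => ∑ k ∈ Icc 1 (n / 2),
      (n : ℝ) ^ 2 * (‖E k (α v)‖ ^ 2 * (Nm v.1 : ℝ) ^ (-w k)) :=
    summable_sum fun k hk => by
      rw [mem_Icc] at hk
      exact (hw2 k hk.1 hk.2).mul_left _
  refine Summable.of_nonneg_of_le (fun v => by positivity) (fun v => ?_)
    ((hs1.add hs2).comp_injective (i := fun v : {v : Places S // ∃ i, (Nm v.1 : ℝ) ^ θ ≤ ‖α v i‖} => v.1)
      Subtype.val_injective)
  obtain ⟨v, i, hi⟩ := v
  simp only [Function.comp_apply]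
  have hN1 : (1 : ℝ) ≤ Nm v.1 := by
    have := two_le_Nm v.1
    exact_mod_cast (by omega : 1 ≤ Nm v.1)
  have hN0 : (0 : ℝ) < Nm v.1 := by linarith
  have hR : 1 ≤ (Nm v.1 : ℝ) ^ θ := Real.one_le_rpow hN1 hθ.le
  have hpos : 0 ≤ ∑ k ∈ Icc 1 (n / 2), (n : ℝ) ^ 2 * (‖E k (α v)‖ ^ 2 * (Nm v.1 : ℝ) ^ (-w k)) :=
    sum_nonneg fun _ _ => by positivity
  have hn : 0 < n := i.pos
  by_cases hv : ((Nm v.1 : ℝ) ^ θ) ^ n ≤ n
  · rw [if_pos ⟨hv, hn⟩]
    linarith
  · rw [if_neg (fun hc => hv hc.1), zero_add]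
    obtain ⟨k, hk1, hk2, hk⟩ := large (h v) hR (not_le.1 hv) hi
    have h1 : (n : ℝ) ^ 2 * (‖E k (α v)‖ ^ 2 * (Nm v.1 : ℝ) ^ (-w k)) ≤
        ∑ k ∈ Icc 1 (n / 2), (n : ℝ) ^ 2 * (‖E k (α v)‖ ^ 2 * (Nm v.1 : ℝ) ^ (-w k)) :=
      single_le_sum (f := fun k => (n : ℝ) ^ 2 * (‖E k (α v)‖ ^ 2 * (Nm v.1 : ℝ) ^ (-w k)))
        (fun _ _ => by positivity) (mem_Icc.2 ⟨hk1, hk2⟩)
    refine le_trans ?_ h1
    have h2 : (Nm v.1 : ℝ) ^ (2 * k * θ) ≤ (n : ℝ) ^ 2 * ‖E k (α v)‖ ^ 2 := by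
      have h3 := pow_le_pow_left₀ (by positivity) hk 2
      rw [mul_pow, ← pow_mul] at h3
      refine le_trans (le_of_eq ?_) h3
      rw [← Real.rpow_natCast, ← Real.rpow_mul hN0.le]
      congr 1
      push_cast
      ring
    have h4 : (Nm v.1 : ℝ) ^ (-s) ≤ (Nm v.1 : ℝ) ^ (2 * k * θ) * (Nm v.1 : ℝ) ^ (-w k) := by
      rw [← Real.rpow_add hN0]
      refine Real.rpow_le_rpow_of_exponent_le hN1 ?_
      have := hw1 k hk1 hk2
      linarith
    refine h4.trans ?_
    rw [← mul_assoc]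
    exact mul_le_mul_of_nonneg_right h2 (by positivity)

/-- from the series to the number of places -/
theorem count_of_summable {P : Places S → Prop} {s : ℝ} (hs : 0 ≤ s)
    (h : Summable fun v : {v : Places S // P v} => (Nm v.1.1 : ℝ) ^ (-s)) :
    ∃ C : ℝ, ∀ x : ℝ, 1 ≤ x → (({v : Places S | (Nm v.1 : ℝ) ≤ x ∧ P v}.ncard : ℕ) : ℝ) ≤ C * x ^ s := by
  refine ⟨∑' v : {v : Places S // P v}, (Nm v.1.1 : ℝ) ^ (-s), fun x hx => ?_⟩
  have hfin : {v : Places S | (Nm v.1 : ℝ) ≤ x ∧ P v}.Finite :=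
    (finite_Nm_le (S := S) x).subset fun v hv => hv.1
  have hfin2 : {v : {v : Places S // P v} | (Nm v.1.1 : ℝ) ≤ x}.Finite :=
    (finite_Nm_le (S := S) x).preimage Subtype.val_injective.injOn
  have hc : {v : Places S | (Nm v.1 : ℝ) ≤ x ∧ P v}.ncard =
      {v : {v : Places S // P v} | (Nm v.1.1 : ℝ) ≤ x}.ncard := by
    rw [← Set.ncard_image_of_injective _ (Subtype.val_injective (p := P))]
    congr 1
    ext v
    simp only [Set.mem_ofPred_eq, Set.mem_image, Subtype.exists, exists_and_left, exists_prop,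
      exists_eq_right_right]
  rw [hc, Set.ncard_eq_toFinset_card _ hfin2]
  have h1 : ∑ v ∈ hfin2.toFinset, (Nm v.1.1 : ℝ) ^ (-s) ≤
      ∑' v : {v : Places S // P v}, (Nm v.1.1 : ℝ) ^ (-s) :=
    h.sum_le_tsum _ fun v _ => by positivity
  have h2 : ((hfin2.toFinset.card : ℕ) : ℝ) * x ^ (-s) ≤ ∑ v ∈ hfin2.toFinset, (Nm v.1.1 : ℝ) ^ (-s) := by
    rw [← nsmul_eq_mul, ← sum_const]
    refine sum_le_sum fun v hv => ?_
    rw [Set.Finite.mem_toFinset, Set.mem_ofPred_eq] at hv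
    have hN : (0 : ℝ) < Nm v.1.1 := by
      have := two_le_Nm v.1.1
      exact_mod_cast (by omega : 0 < Nm v.1.1)
    exact Real.rpow_le_rpow_of_nonpos hN hv (by linarith)
  have h3 := h2.trans h1
  have hx0 : 0 < x := by linarith
  rw [Real.rpow_neg hx0.le, ← div_eq_mul_inv, div_le_iff₀ (by positivity)] at h3
  exact h3

end Pool.Agent.N65.Ram
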