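import Mathlib
import Pool.Agent.N65.Exc

/-!
# Rankin-Selberg products: the terms of degree one, and the tail bound for `GL(4)`
-/

set_option autoImplicit false

namespace Pool.Agent.N65.Ram

open NumberField IsDedekindDomain

variable {K : Type} [Field K] [NumberField K] {S : Finset (HeightOneSpectrum (𝓞 K))}

/-- `L^S(s, π × π~)` has at most a simple pole at `s = 1`:
`log L^S(σ, π × π~) ≤ log (1 / (σ - 1)) + C` for `1 < σ ≤ 2`. -/
def SimplePole {n : ℕ} (α : Places S → Fin n → ℂ) : Prop :=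
  ∃ C : ℝ, ∀ σ : ℝ, 1 < σ → σ ≤ 2 →
    ∑' x : Places S × ℕ, ‖∑ i, α x.1 i ^ (x.2 + 1)‖ ^ 2 / ((x.2 : ℝ) + 1) *
      (Nm x.1.1 : ℝ) ^ (-(((x.2 : ℝ) + 1) * σ)) ≤ Real.log (1 / (σ - 1)) + C

/-- What is used of the exterior square `Λ²π`, an automorphic representation of `GL_6` by Kim, for `n = 4`: the
Rankin-Selberg Euler product `L^S(s, Λ²π × (Λ²π)~)` converges absolutely for `Re s > 1` and has a pole of order at most
`m` at `s = 1`. Here `E 2` is the second elementary symmetric function. -/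
def ExteriorSquare {n : ℕ} (m : ℝ) (α : Places S → Fin n → ℂ) : Prop :=
  (∀ σ : ℝ, 1 < σ → Summable fun x : Places S × ℕ => ‖E 2 (fun i => α x.1 i ^ (x.2 + 1))‖ ^ 2 / ((x.2 : ℝ) + 1) *
    (Nm x.1.1 : ℝ) ^ (-(((x.2 : ℝ) + 1) * σ))) ∧
  ∃ C : ℝ, ∀ σ : ℝ, 1 < σ → σ ≤ 2 →
    ∑' x : Places S × ℕ, ‖E 2 (fun i => α x.1 i ^ (x.2 + 1))‖ ^ 2 / ((x.2 : ℝ) + 1) *
      (Nm x.1.1 : ℝ) ^ (-(((x.2 : ℝ) + 1) * σ)) ≤ m * Real.log (1 / (σ - 1)) + C

/-- the terms `k = 1` of the logarithm of an Euler product with nonnegative coefficients -/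
theorem row_le {f : Places S × ℕ → ℝ} (hf : ∀ x, 0 ≤ f x) {σ : ℝ}
    (h : Summable fun x : Places S × ℕ => f x / ((x.2 : ℝ) + 1) * (Nm x.1.1 : ℝ) ^ (-(((x.2 : ℝ) + 1) * σ))) :
    (Summable fun v : Places S => f (v, 0) * (Nm v.1 : ℝ) ^ (-σ)) ∧
    ∑' v : Places S, f (v, 0) * (Nm v.1 : ℝ) ^ (-σ) ≤
      ∑' x : Places S × ℕ, f x / ((x.2 : ℝ) + 1) * (Nm x.1.1 : ℝ) ^ (-(((x.2 : ℝ) + 1) * σ)) := by
  have hi : Function.Injective fun v : Places S => (v, (0 : ℕ)) := fun v w hvw => congrArg Prod.fst hvw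
  have h1 := h.comp_injective hi
  have e : ((fun x : Places S × ℕ => f x / ((x.2 : ℝ) + 1) * (Nm x.1.1 : ℝ) ^ (-(((x.2 : ℝ) + 1) * σ))) ∘
      fun v : Places S => (v, (0 : ℕ))) = fun v : Places S => f (v, 0) * (Nm v.1 : ℝ) ^ (-σ) := by
    funext v
    simp
  rw [e] at h1
  refine ⟨h1, ?_⟩
  have h2 := tsum_comp_le_tsum_of_inj h (fun x => by have := hf x; positivity) hi
  rwa [e] at h2

/-- the tail bound for `n = 4` -/
theorem tail {α : Places S → Fin 4 → ℂ} (h : Cuspidal α) (hp : SimplePole α) {m : ℝ} (hm : 0 < m)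
    (hL : ExteriorSquare m α) {T : ℝ} (hT : 1 < T) :
    ∃ C : ℝ, ∀ σ : ℝ, 1 < σ → σ ≤ 2 →
      (Summable fun v : {v : Places S // ∃ i, T ≤ ‖α v i‖} => (Nm v.1.1 : ℝ) ^ (-σ)) ∧
      ∑' v : {v : Places S // ∃ i, T ≤ ‖α v i‖}, (Nm v.1.1 : ℝ) ^ (-σ) ≤
        ((1 + √m / (T + 1 / T)) / (T - 1 / T)) ^ 2 * Real.log (1 / (σ - 1)) + C := by
  obtain ⟨C1, hC1⟩ := hp
  obtain ⟨hL1, C2, hC2⟩ := hL
  have hT0 : 0 < T := by linarith
  have hT1 : 1 / T < 1 := by rw [div_lt_one hT0]; exact hT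
  set U : ℝ := T - 1 / T with hU
  set V : ℝ := T + 1 / T with hV
  have hU0 : 0 < U := by rw [hU]; linarith
  have hV0 : 0 < V := by rw [hV]; positivity
  set μ : ℝ := √m / V with hμ
  have hμ0 : 0 < μ := by rw [hμ]; positivity
  -- the pointwise inequality
  have key : ∀ v : Places S, (∃ i, T ≤ ‖α v i‖) →
      U ^ 2 ≤ (1 + μ) * (‖∑ i, α v i‖ ^ 2 + ‖E 2 (α v)‖ ^ 2 / (μ * V ^ 2)) := by
    rintro v ⟨i, hi⟩
    have h1 := root_le (α v) i
    set R : ℝ := ‖α v i‖ with hR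
    have hR1 : 1 < R := hT.trans_le hi
    have hR0 : 0 < R := by linarith
    have e : Finset.Icc 1 4 = ({1, 2, 3, 4} : Finset ℕ) := by decide
    rw [e] at h1
    simp only [Finset.mem_insert, Finset.mem_singleton, OfNat.one_ne_ofNat, or_self, not_false_eq_true,
      Finset.sum_insert, Nat.reduceEqDiff, Finset.sum_singleton, Nat.add_one_sub_one, Nat.reduceSub, pow_zero,
      mul_one, pow_one] at h1
    have h3 := E_symm (h.unitary v) (k := 1) (by norm_num)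
    have h4 : ‖E 4 (α v)‖ = 1 := by rw [E_card, norm_prod_eq_one (h.unitary v)]
    have h5 : E 1 (α v) = ∑ i, α v i := by simp [E, Finset.powersetCard_one]
    simp only [Nat.add_one_sub_one] at h3
    rw [h3, h4, h5] at h1
    set a : ℝ := ‖∑ i, α v i‖ with ha
    set b : ℝ := ‖E 2 (α v)‖ with hb
    have ha0 : 0 ≤ a := norm_nonneg _
    have hb0 : 0 ≤ b := norm_nonneg _
    -- `R - 1/R ≤ a + b / (R + 1/R)`
    have h6 : R - 1 / R ≤ a + b / (R + 1 / R) := by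
      have h7 : 0 < R + 1 / R := by positivity
      have h8 : (R - 1 / R) * (R + 1 / R) * R ^ 2 ≤ (a * (R + 1 / R) + b) * R ^ 2 := by
        have e1 : (R - 1 / R) * (R + 1 / R) * R ^ 2 = R ^ 4 - 1 := by
          field_simp
          ring
        have e2 : (a * (R + 1 / R) + b) * R ^ 2 = a * R ^ 3 + b * R ^ 2 + a * R := by
          field_simp
          ring
        rw [e1, e2]
        linarith
      have h9 : (R - 1 / R) * (R + 1 / R) ≤ a * (R + 1 / R) + b :=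
        le_of_mul_le_mul_right h8 (by positivity)
      have h10 : a + b / (R + 1 / R) = (a * (R + 1 / R) + b) / (R + 1 / R) := by
        field_simp
      rw [h10, le_div_iff₀ h7]
      exact h9
    have hRi : 1 / R ≤ 1 / T := one_div_le_one_div_of_le hT0 hi
    have h11 : U ≤ R - 1 / R := by rw [hU]; linarith
    have h12 : V ≤ R + 1 / R := by
      have : (T + 1 / T) * (T * R) ≤ (R + 1 / R) * (T * R) := by
        have e1 : (T + 1 / T) * (T * R) = T ^ 2 * R + R := by field_simp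
        have e2 : (R + 1 / R) * (T * R) = R ^ 2 * T + T := by field_simp
        rw [e1, e2]
        nlinarith [mul_nonneg (sub_nonneg.2 hi) (by nlinarith : (0 : ℝ) ≤ T * R - 1)]
      exact le_of_mul_le_mul_right this (by positivity)
    have h13 : b / (R + 1 / R) ≤ b / V := div_le_div_of_nonneg_left hb0 hV0 h12
    have h14 : U ≤ a + b / V := by linarith
    have h15 : U ^ 2 ≤ (a + b / V) ^ 2 := pow_le_pow_left₀ hU0.le h14 2
    refine h15.trans ?_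
    have h16 : (1 + μ) * (a ^ 2 + b ^ 2 / (μ * V ^ 2)) - (a + b / V) ^ 2 = (μ * a - b / V) ^ 2 / μ := by
      field_simp
      ring
    have h17 : 0 ≤ (μ * a - b / V) ^ 2 / μ := by positivity
    linarith
  -- the constants
  have hconst : (1 + μ) * (1 + m / (μ * V ^ 2)) = (1 + √m / V) ^ 2 := by
    have h1 : m = √m ^ 2 := (Real.sq_sqrt hm.le).symm
    have h2 : m / (μ * V ^ 2) = μ := by
      rw [hμ]
      have : 0 < √m := Real.sqrt_pos.2 hm
      field_simp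
      exact h1
    rw [h2, hμ]
    ring
  refine ⟨(1 + μ) * (C1 + C2 / (μ * V ^ 2)) / U ^ 2, fun σ hσ hσ2 => ?_⟩
  have s1 := row_le (f := fun x : Places S × ℕ => ‖∑ i, α x.1 i ^ (x.2 + 1)‖ ^ 2) (fun x => by positivity)
    (h.rankinSelberg σ hσ)
  have s2 := row_le (f := fun x : Places S × ℕ => ‖E 2 (fun i => α x.1 i ^ (x.2 + 1))‖ ^ 2) (fun x => by positivity)
    (hL1 σ hσ)
  simp only [zero_add, pow_one] at s1 s2
  have t1 := s1.2.trans (hC1 σ hσ hσ2)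
  have t2 := s2.2.trans (hC2 σ hσ hσ2)
  -- the series with the weights
  have hs : Summable fun v : Places S =>
      (1 + μ) * (‖∑ i, α v i‖ ^ 2 + ‖E 2 (α v)‖ ^ 2 / (μ * V ^ 2)) / U ^ 2 * (Nm v.1 : ℝ) ^ (-σ) := by
    refine ((s1.1.mul_left ((1 + μ) / U ^ 2)).add (s2.1.mul_left ((1 + μ) / (μ * V ^ 2) / U ^ 2))).congr fun v => ?_
    field_simp
  have hle : (Summable fun v : {v : Places S // ∃ i, T ≤ ‖α v i‖} => (Nm v.1.1 : ℝ) ^ (-σ)) ∧
      ∑' v : {v : Places S // ∃ i, T ≤ ‖α v i‖}, (Nm v.1.1 : ℝ) ^ (-σ) ≤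
      ∑' v : Places S,
        (1 + μ) * (‖∑ i, α v i‖ ^ 2 + ‖E 2 (α v)‖ ^ 2 / (μ * V ^ 2)) / U ^ 2 * (Nm v.1 : ℝ) ^ (-σ) := by
    have hinj : Function.Injective (Subtype.val : {v : Places S // ∃ i, T ≤ ‖α v i‖} → Places S) :=
      Subtype.val_injective
    have hle1 : ∀ v : {v : Places S // ∃ i, T ≤ ‖α v i‖}, (Nm v.1.1 : ℝ) ^ (-σ) ≤
        (1 + μ) * (‖∑ i, α v.1 i‖ ^ 2 + ‖E 2 (α v.1)‖ ^ 2 / (μ * V ^ 2)) / U ^ 2 * (Nm v.1.1 : ℝ) ^ (-σ) := by
      intro v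
      refine le_mul_of_one_le_left (by positivity) ?_
      rw [le_div_iff₀ (by positivity), one_mul]
      exact key v.1 v.2
    have hs' := hs.comp_injective hinj
    have hs2 := Summable.of_nonneg_of_le (fun v => by positivity) hle1 hs'
    refine ⟨hs2, (Summable.tsum_le_tsum hle1 hs2 hs').trans ?_⟩
    exact tsum_comp_le_tsum_of_inj hs (fun v => by positivity) hinj
  refine ⟨hle.1, hle.2.trans ?_⟩
  have e1 : ∑' v : Places S,
        (1 + μ) * (‖∑ i, α v i‖ ^ 2 + ‖E 2 (α v)‖ ^ 2 / (μ * V ^ 2)) / U ^ 2 * (Nm v.1 : ℝ) ^ (-σ) =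
      (1 + μ) / U ^ 2 * (∑' v : Places S, ‖∑ i, α v i‖ ^ 2 * (Nm v.1 : ℝ) ^ (-σ)) +
      (1 + μ) / (μ * V ^ 2) / U ^ 2 * (∑' v : Places S, ‖E 2 (α v)‖ ^ 2 * (Nm v.1 : ℝ) ^ (-σ)) := by
    rw [← tsum_mul_left, ← tsum_mul_left,
      ← (s1.1.mul_left ((1 + μ) / U ^ 2)).tsum_add (s2.1.mul_left ((1 + μ) / (μ * V ^ 2) / U ^ 2))]
    refine tsum_congr fun v => ?_
    field_simp
  rw [e1]
  have t3 := mul_le_mul_of_nonneg_left t1 (by positivity : 0 ≤ (1 + μ) / U ^ 2)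
  have t4 := mul_le_mul_of_nonneg_left t2 (by positivity : 0 ≤ (1 + μ) / (μ * V ^ 2) / U ^ 2)
  refine (add_le_add t3 t4).trans (le_of_eq ?_)
  rw [div_pow, ← hconst]
  field_simp
  ring

end Pool.Agent.N65.Ram
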